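import Pool.Agent.Q134.CsfTree

/-!
# A CPET tree of maximum degree four with a positive coefficient of `e_(3, 2, …, 2)`

The tree has 23 vertices: a vertex `u` with two leaves and an arm with 8 vertices, and a neighbour `w`
of `u` with a leaf and an arm with 10 vertices. The coefficient of `e_(3, 2^10)` is `5`.

Put `x = (1, ε, -1 - ε, 0, …)` with `ε² = 0`: then `e₁ = 0`, `e₂ = -1 - ε`, `e₃ = -ε`, `e_k = 0` for
`k ≥ 4`, so the only `e_λ`, `|λ| = 23`, that survives is `e_(3, 2^10) = -ε`, and `X_T` becomes `-5 ε`
(sum over the proper colourings, computed by removing one vertex after the other).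
-/

set_option autoImplicit false
set_option maxRecDepth 100000

open Pool.Agent.Q134.CP Pool.Agent.Q134.Csf

namespace Pool.Agent.Results.MP_fedadc_co.PositiveCoefficient

/-- parents -/
def par (j : ℕ) : ℕ := if j = 10 ∨ j = 11 then 8 else if j = 13 then 11 else j - 1

/-- an interval starting at `s` and ending before `lim s` is connected -/
def lim (s : ℕ) : ℕ := if s = 9 then 10 else if s = 10 then 11 else if s = 12 then 13 else s + 100

theorem check : Pool.Agent.Q134.LT.allOK lim 300 100 23 2 [] = true := by decide +kernel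

lemma par_lt (j : ℕ) (h : 1 ≤ j) : par j < j := by unfold par; split_ifs <;> omega

theorem run_eq : ∃ t, run par (2 * 10 + 2) (List.replicate (2 * 10 + 3) pt3) = t ∧
    addD t.1 (addD t.2.1 t.2.2) = (0, -5) := ⟨_, rfl, by decide +kernel⟩

/-- **Theorem.** There is a tree `T` with 23 vertices and maximum degree `4` that has a connected
partition of every type, and whose chromatic symmetric function has, in the elementary basis, the
coefficient `5` at `(3, 2^10)`: for every number `N ≥ 23` of variables, `X_T` has exactly one expansion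
`∑ c_λ e_λ` over the partitions of 23, and `c_(3, 2^10) = 5`. -/
theorem result : ∃ (T : SimpleGraph (Fin 23)) (_ : DecidableRel T.Adj), T.IsTree ∧
    T.maxDegree = 4 ∧ IsCPET T ∧
    ∀ N : ℕ, 23 ≤ N → ∃ c : Nat.Partition 23 → ℚ, IsExpansion (csf T N) c ∧
      (∀ c', IsExpansion (csf T N) c' → c' = c) ∧
      ∀ lam : Nat.Partition 23, lam.parts = 3 ::ₘ Multiset.replicate 10 2 → c lam = 5 := by
  have h1 : ∀ v, (Pool.Agent.Q134.LT.tree 23 par).degree v ≤ 4 := by decide +kernel
  have h2 : (Pool.Agent.Q134.LT.tree 23 par).degree 8 = 4 := by decide +kernel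
  refine ⟨Pool.Agent.Q134.LT.tree 23 par, inferInstance,
    Pool.Agent.Q134.LT.isTree (by norm_num) par_lt (by decide +kernel), ?_,
    Pool.Agent.Q134.LT.cpet (by norm_num) par_lt ?_ ?_ check, ?_⟩
  · refine le_antisymm
      ((Pool.Agent.Q134.LT.tree 23 par).maxDegree_le_of_forall_degree_le 4 h1) ?_
    rw [← h2]
    exact (Pool.Agent.Q134.LT.tree 23 par).degree_le_maxDegree 8
  · intro s j hj hj'
    unfold lim at hj'
    unfold par
    split_ifs at hj' ⊢ <;> omega
  · intro s
    unfold lim
    split_ifs <;> omega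
  · intro N hN
    obtain ⟨c, hc, hu⟩ := csf_existsUnique (Pool.Agent.Q134.LT.tree 23 par) hN
    refine ⟨c, hc, hu, fun lam hlam => ?_⟩
    obtain ⟨t, ht, ha⟩ := run_eq
    have h3 := coeff_tree (k := 10) par_lt (by omega) c hc (-5) t ht ha
    have h4 : lam = lam32 10 := by
      rw [Nat.Partition.ext_iff, hlam]
      rfl
    rw [h4, h3]
    norm_num

end Pool.Agent.Results.MP_fedadc_co.PositiveCoefficient
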